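import Mathlib

set_option autoImplicit false

namespace Pool.Agent.Q16.SubLat

universe u v w

section

variable {k : Type u} [Field k]

/-- line spanned by a vector -/
abbrev ln (x : Fin 3 → k) : Submodule k (Fin 3 → k) := Submodule.span k {x}

theorem mem_ln_sup {x y z : Fin 3 → k} : z ∈ ln x ⊔ ln y ↔ ∃ a b : k, a • x + b • y = z := by
  rw [Submodule.mem_sup]
  constructor
  · rintro ⟨p, hp, q, hq, rfl⟩
    obtain ⟨a, rfl⟩ := Submodule.mem_span_singleton.1 hp
    obtain ⟨b, rfl⟩ := Submodule.mem_span_singleton.1 hq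
    exact ⟨a, b, rfl⟩
  · rintro ⟨a, b, rfl⟩
    exact ⟨_, Submodule.mem_span_singleton.2 ⟨a, rfl⟩, _, Submodule.mem_span_singleton.2 ⟨b, rfl⟩, rfl⟩

theorem ln_eq_of (n : k) (h : n = 0) : ln ![(1 : k), n, 0] = ln ![1, 0, 0] := by rw [h]

theorem fact_a : ln ![(1 : k), 0, 0] ≤ ln ![1, 0, 1] ⊔ ln ![0, 0, 1] := by
  rw [Submodule.span_singleton_le_iff_mem, mem_ln_sup]
  refine ⟨1, -1, ?_⟩
  funext i; fin_cases i <;> simp

theorem fact_b : ln ![(1 : k), 0, 1] ⊓ ln ![1, 0, 0] ≤ ⊥ := by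
  rintro x ⟨h1, h2⟩
  obtain ⟨a, rfl⟩ := Submodule.mem_span_singleton.1 h1
  obtain ⟨b, hb⟩ := Submodule.mem_span_singleton.1 h2
  have h := congrFun hb 2
  simp at h
  rw [Submodule.mem_bot]
  rw [← h]; simp

theorem fact_c : ln ![(0 : k), 0, 1] ≤ ln ![0, 1, -1] ⊔ ln ![0, 1, 0] := by
  rw [Submodule.span_singleton_le_iff_mem, mem_ln_sup]
  refine ⟨-1, 1, ?_⟩
  funext i; fin_cases i <;> simp

theorem fact_d : ln ![(0 : k), 1, -1] ⊓ ln ![0, 0, 1] ≤ ⊥ := by
  rintro x ⟨h1, h2⟩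
  obtain ⟨a, rfl⟩ := Submodule.mem_span_singleton.1 h1
  obtain ⟨b, hb⟩ := Submodule.mem_span_singleton.1 h2
  have h := congrFun hb 1
  simp at h
  rw [Submodule.mem_bot]
  rw [← h]; simp

theorem fact_e (n : k) : (ln ![1, n, 0] ⊔ ln ![0, 0, 1]) ⊓ (ln ![1, 0, 1] ⊔ ln ![0, 1, 0]) ≤
    ln ![1, n, 1] := by
  rintro x ⟨h1, h2⟩
  obtain ⟨a, b, rfl⟩ := mem_ln_sup.1 h1
  obtain ⟨c, d, h⟩ := mem_ln_sup.1 h2
  have h3 := congrFun h 0
  have h4 := congrFun h 2
  simp at h3 h4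
  refine Submodule.mem_span_singleton.2 ⟨a, ?_⟩
  rw [← h4, h3]
  funext i; fin_cases i <;> simp

theorem fact_f (n : k) : (ln ![1, n, 1] ⊔ ln ![0, 1, -1]) ⊓ (ln ![1, 0, 0] ⊔ ln ![0, 1, 0]) ≤
    ln ![1, n + 1, 0] := by
  rintro x ⟨h1, h2⟩
  obtain ⟨a, b, rfl⟩ := mem_ln_sup.1 h1
  obtain ⟨c, d, h⟩ := mem_ln_sup.1 h2
  have h4 := congrFun h 2
  simp at h4
  have h5 : b = a := by linear_combination h4
  refine Submodule.mem_span_singleton.2 ⟨a, ?_⟩
  rw [h5]
  funext i; fin_cases i <;> simp; ring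

theorem fact_g : ln ![(1 : k), 0, 0] ⊓ ln ![0, 1, 0] ≤ ⊥ := by
  rintro x ⟨h1, h2⟩
  obtain ⟨a, rfl⟩ := Submodule.mem_span_singleton.1 h1
  obtain ⟨b, hb⟩ := Submodule.mem_span_singleton.1 h2
  have h := congrFun hb 0
  simp at h
  rw [Submodule.mem_bot]
  rw [← h]; simp

theorem fact_h : ln ![(1 : k), 0, 0] ≠ ⊥ := by
  intro h
  rw [Submodule.span_singleton_eq_bot] at h
  have := congrFun h 0
  simp at this

/-- A lattice embedding of the subspace lattice of `k ^ 3` transfers the characteristic. -/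
theorem char_transfer {D : Type v} {V : Type w} [DivisionRing D] [AddCommGroup V] [Module D V]
    (f : Submodule k (Fin 3 → k) → Submodule D V) (hinj : Function.Injective f)
    (hinf : ∀ a b, f (a ⊓ b) = f a ⊓ f b) (hsup : ∀ a b, f (a ⊔ b) = f a ⊔ f b)
    (p : ℕ) (hp : (p : k) = 0) : (p : D) = 0 := by
  have hmono : ∀ a b, a ≤ b → f a ≤ f b := by
    intro a b hab
    have : f a = f a ⊓ f b := by rw [← hinf, inf_eq_left.2 hab]
    rw [this]; exact inf_le_right
  have hbot : ∀ a, f ⊥ ≤ f a := fun a => hmono _ _ bot_le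
  obtain ⟨v1, hv1, hv1'⟩ : ∃ v ∈ f (ln ![(1 : k), 0, 0]), v ∉ f ⊥ := by
    by_contra hc
    push Not at hc
    exact fact_h (hinj (le_antisymm hc (hbot _)))
  have h1 := hmono _ _ fact_a hv1
  rw [hsup] at h1
  obtain ⟨a, ha, c, hc, hac⟩ := Submodule.mem_sup.1 h1
  have h2 := hmono _ _ fact_c hc
  rw [hsup] at h2
  obtain ⟨g, hg, b, hb, hgb⟩ := Submodule.mem_sup.1 h2
  -- `v3 = -c`, `v2 = -b`
  have hbN : b ∉ f ⊥ := by
    intro hbN
    have hcG : c ∈ f (ln ![(0 : k), 1, -1]) := by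
      rw [← hgb]; exact Submodule.add_mem _ hg (hbot _ hbN)
    have hcN : c ∈ f ⊥ := by
      apply hmono _ _ fact_d
      rw [hinf]; exact ⟨hcG, hc⟩
    have hvF : v1 ∈ f (ln ![(1 : k), 0, 1]) := by
      rw [← hac]; exact Submodule.add_mem _ ha (hbot _ hcN)
    apply hv1'
    apply hmono _ _ fact_b
    rw [hinf]; exact ⟨hvF, hv1⟩
  have key : ∀ n : ℕ, v1 - n • b ∈ f (ln ![(1 : k), (n : k), 0]) := by
    intro n
    induction n with
    | zero => simpa using hv1
    | succ n ih =>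
      have hb' : n • b ∈ f (ln ![(0 : k), 1, 0]) := nsmul_mem hb n
      have h3 : v1 - n • b - c ∈ f (ln ![(1 : k), (n : k), 1]) := by
        apply hmono _ _ (fact_e (n : k))
        rw [hinf, hsup, hsup]
        constructor
        · exact Submodule.sub_mem _ (Submodule.mem_sup_left ih) (Submodule.mem_sup_right hc)
        · have : v1 - n • b - c = a - n • b := by rw [← hac]; abel
          rw [this]
          exact Submodule.sub_mem _ (Submodule.mem_sup_left ha) (Submodule.mem_sup_right hb')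
      have h4 : v1 - (n + 1) • b ∈ f (ln ![(1 : k), (n : k) + 1, 0]) := by
        apply hmono _ _ (fact_f (n : k))
        rw [hinf, hsup, hsup]
        constructor
        · have : v1 - (n + 1) • b = (v1 - n • b - c) + g := by
            rw [← hgb, add_smul, one_smul]; abel
          rw [this]
          exact Submodule.add_mem _ (Submodule.mem_sup_left h3) (Submodule.mem_sup_right hg)
        · exact Submodule.sub_mem _ (Submodule.mem_sup_left hv1)
            (Submodule.mem_sup_right (nsmul_mem hb _))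
      push_cast
      exact h4
  by_contra hpD
  apply hbN
  have h5 := key p
  rw [hp] at h5
  have h6 : p • b ∈ f (ln ![(1 : k), 0, 0]) := by
    have := Submodule.sub_mem _ hv1 h5
    simpa using this
  have h7 : p • b ∈ f ⊥ := by
    apply hmono _ _ fact_g
    rw [hinf]; exact ⟨h6, nsmul_mem hb p⟩
  have h8 : b = (p : D)⁻¹ • (p • b) := by
    rw [← Nat.cast_smul_eq_nsmul D, smul_smul, inv_mul_cancel₀ hpD, one_smul]
  rw [h8]
  exact Submodule.smul_mem _ _ h7

end

end Pool.Agent.Q16.SubLat
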