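import Mathlib

set_option autoImplicit false

namespace Pool.Agent.Q16.SubLat

universe u v w

/-- Function symbols `∧`, `∨` of the language of lattices. -/
inductive LatFunc : ℕ → Type
  | inf : LatFunc 2
  | sup : LatFunc 2

/-- The first-order language of lattices: two binary function symbols, no relation symbols
besides equality. -/
def latLang : FirstOrder.Language.{0, 0} := ⟨LatFunc, fun _ => Empty⟩

/-- A lattice as a structure for the language of lattices. -/
@[instance_reducible]
def latStructure (L : Type u) [Lattice L] : latLang.Structure L where
  funMap := fun {_} f x => match f, x with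
    | LatFunc.inf, x => x 0 ⊓ x 1
    | LatFunc.sup, x => x 0 ⊔ x 1
  RelMap := fun {_} r _ => nomatch r

/-- The lattice `L` satisfies the first-order sentence `φ`. -/
def Sat (L : Type u) [Lattice L] (φ : latLang.Sentence) : Prop :=
  @FirstOrder.Language.Sentence.Realize latLang L (latStructure L) φ

/-- The class `𝒦`: lattices isomorphic to a sublattice of the lattice of subspaces of some vector
space over some division ring. -/
def InK (L : Type u) [Lattice L] : Prop :=
  ∃ (D : Type u) (V : Type u) (_ : DivisionRing D) (_ : AddCommGroup V) (_ : Module D V)
    (f : L → Submodule D V), Function.Injective f ∧ (∀ a b, f (a ⊓ b) = f a ⊓ f b) ∧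
      ∀ a b, f (a ⊔ b) = f a ⊔ f b

end Pool.Agent.Q16.SubLat
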