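import Mathlib

set_option autoImplicit false

namespace Pool.Agent.Q16.SubLat

universe u v w

open Filter

section Ext

variable {K : Type u} {Ω : Type v} [Field K] [Field Ω] [Algebra K Ω]

variable (Ω) in
/-- extension of scalars of a subspace, by functionals -/
def ext (W : Submodule K (Fin 3 → K)) : Submodule Ω (Fin 3 → Ω) where
  carrier := {x | ∀ π : Ω →ₗ[K] K, (fun i => π (x i)) ∈ W}
  zero_mem' := fun π => by
    have : (fun i : Fin 3 => π ((0 : Fin 3 → Ω) i)) = 0 := by funext i; simp
    rw [this]; exact W.zero_mem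
  add_mem' := fun {x y} hx hy π => by
    have : (fun i : Fin 3 => π ((x + y) i)) = (fun i => π (x i)) + fun i => π (y i) := by
      funext i; simp
    rw [this]; exact W.add_mem (hx π) (hy π)
  smul_mem' := fun c x hx π => hx (π ∘ₗ (LinearMap.mulLeft K c))

theorem mem_ext {W : Submodule K (Fin 3 → K)} {x : Fin 3 → Ω} :
    x ∈ ext Ω W ↔ ∀ π : Ω →ₗ[K] K, (fun i => π (x i)) ∈ W := Iff.rfl

theorem ext_inf (W W' : Submodule K (Fin 3 → K)) : ext Ω (W ⊓ W') = ext Ω W ⊓ ext Ω W' := by
  ext x
  simp only [mem_ext, Submodule.mem_inf]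
  exact forall_and

theorem smul_mem_ext {W : Submodule K (Fin 3 → K)} {w : Fin 3 → K} (hw : w ∈ W) (b : Ω) :
    (fun i => w i • b) ∈ ext Ω W := by
  intro π
  have : (fun i : Fin 3 => π (w i • b)) = π b • w := by
    funext i; simp [mul_comm]
  rw [this]; exact W.smul_mem _ hw

theorem ext_sup (W W' : Submodule K (Fin 3 → K)) : ext Ω (W ⊔ W') = ext Ω W ⊔ ext Ω W' := by
  classical
  apply le_antisymm
  · intro x hx
    let b := Module.Basis.ofVectorSpace K Ω
    have h1 : ∀ j, ∃ u ∈ W, ∃ u' ∈ W', u + u' = fun i => b.coord j (x i) := fun j =>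
      Submodule.mem_sup.1 (hx (b.coord j))
    choose u hu u' hu' huu using h1
    let J : Finset _ := Finset.univ.biUnion (fun i : Fin 3 => (b.repr (x i)).support)
    have h2 : x = (∑ j ∈ J, fun i => u j i • b j) + ∑ j ∈ J, fun i => u' j i • b j := by
      rw [← Finset.sum_add_distrib]
      funext i
      rw [Finset.sum_apply]
      have h3 : ∀ j, ((fun i => u j i • b j) + fun i => u' j i • b j : Fin 3 → Ω) i =
          b.repr (x i) j • b j := by
        intro j
        have := congrFun (huu j) i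
        simp only [Pi.add_apply] at this ⊢
        rw [← add_smul, this]; rfl
      simp only [h3]
      conv_lhs => rw [← b.linearCombination_repr (x i)]
      rw [Finsupp.linearCombination_apply, Finsupp.sum]
      apply Finset.sum_subset
      · intro j hj
        exact Finset.mem_biUnion.2 ⟨i, Finset.mem_univ _, hj⟩
      · intro j _ hj
        rw [Finsupp.notMem_support_iff.1 hj, zero_smul]
    rw [h2]
    exact Submodule.add_mem_sup (Submodule.sum_mem _ (fun j _ => smul_mem_ext (hu j) _))
      (Submodule.sum_mem _ (fun j _ => smul_mem_ext (hu' j) _))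
  · apply sup_le
    · intro x hx π; exact Submodule.mem_sup_left (hx π)
    · intro x hx π; exact Submodule.mem_sup_right (hx π)

theorem ext_inj : Function.Injective (ext Ω : Submodule K (Fin 3 → K) → _) := by
  have key : ∀ W W' : Submodule K (Fin 3 → K), ext Ω W = ext Ω W' → W ≤ W' := by
    intro W W' h x hx
    have h1 := smul_mem_ext hx (1 : Ω)
    rw [h] at h1
    obtain ⟨π, hπ⟩ := LinearMap.exists_leftInverse_of_injective (Algebra.linearMap K Ω)
      (LinearMap.ker_eq_bot.2 (algebraMap K Ω).injective)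
    have h2 := h1 π
    have h3 : (fun i : Fin 3 => π (x i • (1 : Ω))) = x := by
      funext i
      have := LinearMap.congr_fun hπ (x i)
      rw [← Algebra.algebraMap_eq_smul_one]
      exact this
    rw [h3] at h2
    exact h2
  intro W W' h
  exact le_antisymm (key _ _ h) (key _ _ h.symm)

end Ext

section Ultra

variable (k : ℕ → Type u) [∀ i, Field (k i)] (U : Ultrafilter ℕ)

/-- the maximal ideal of an ultrafilter -/
def uI : Ideal (∀ i, k i) where
  carrier := {x | ∀ᶠ i in (U : Filter ℕ), x i = 0}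
  zero_mem' := Filter.Eventually.of_forall fun _ => rfl
  add_mem' := fun {x y} hx hy => by
    filter_upwards [hx, hy] with i h1 h2
    simp [h1, h2]
  smul_mem' := fun c x hx => by
    filter_upwards [hx] with i h1
    simp [h1]

theorem mem_uI {x : ∀ i, k i} : x ∈ uI k U ↔ ∀ᶠ i in (U : Filter ℕ), x i = 0 := Iff.rfl

instance uI_maximal : (uI k U).IsMaximal := by
  classical
  rw [Ideal.isMaximal_iff]
  constructor
  · intro h
    rw [mem_uI] at h
    obtain ⟨i, hi⟩ := h.exists
    exact one_ne_zero hi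
  · intro J x hJ hx hxJ
    have h1 : ∀ᶠ i in (U : Filter ℕ), x i ≠ 0 := by
      rw [mem_uI, ← Ultrafilter.eventually_not] at hx
      exact hx
    let y : ∀ i, k i := fun i => (x i)⁻¹
    have h2 : 1 - y * x ∈ uI k U := by
      rw [mem_uI]
      filter_upwards [h1] with i hi
      simp [y, hi]
    have h3 := J.add_mem (hJ h2) (J.mul_mem_left y hxJ)
    simpa using h3

/-- the ultraproduct field -/
abbrev UK : Type u := (∀ i, k i) ⧸ uI k U

noncomputable instance : Field (UK k U) := Ideal.Quotient.field _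

/-- the subspace of the ultraproduct -/
def bar (W : ∀ i, Submodule (k i) (Fin 3 → k i)) : Submodule (UK k U) (Fin 3 → UK k U) where
  carrier := {x | ∃ v : ∀ i, (Fin 3 → k i), (∀ i, v i ∈ W i) ∧
    ∀ j, x j = Ideal.Quotient.mk (uI k U) (fun i => v i j)}
  zero_mem' := ⟨fun _ => 0, fun i => (W i).zero_mem, fun j => (map_zero _).symm⟩
  add_mem' := by
    rintro x y ⟨v, hv, hx⟩ ⟨v', hv', hy⟩
    refine ⟨fun i => v i + v' i, fun i => (W i).add_mem (hv i) (hv' i), fun j => ?_⟩
    rw [Pi.add_apply, hx, hy, ← map_add]; rfl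
  smul_mem' := by
    rintro c x ⟨v, hv, hx⟩
    obtain ⟨r, rfl⟩ := Ideal.Quotient.mk_surjective c
    refine ⟨fun i => r i • v i, fun i => (W i).smul_mem _ (hv i), fun j => ?_⟩
    rw [Pi.smul_apply, hx, smul_eq_mul, ← map_mul]; rfl

variable {k U}

theorem bar_mono_ev {W W' : ∀ i, Submodule (k i) (Fin 3 → k i)}
    (h : ∀ᶠ i in (U : Filter ℕ), W i ≤ W' i) : bar k U W ≤ bar k U W' := by
  classical
  rintro x ⟨v, hv, hx⟩
  refine ⟨fun i => if W i ≤ W' i then v i else 0, fun i => ?_, fun j => ?_⟩
  · by_cases hi : W i ≤ W' i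
    · simp only [hi, if_true]; exact hi (hv i)
    · simp only [hi, if_false]; exact (W' i).zero_mem
  · rw [hx, Ideal.Quotient.eq, mem_uI]
    filter_upwards [h] with i hi
    simp [hi]

theorem ev_of_bar_le {W W' : ∀ i, Submodule (k i) (Fin 3 → k i)}
    (h : bar k U W ≤ bar k U W') : ∀ᶠ i in (U : Filter ℕ), W i ≤ W' i := by
  classical
  by_contra hc
  rw [← Ultrafilter.eventually_not] at hc
  have h1 : ∀ i, ∃ v : Fin 3 → k i, v ∈ W i ∧ (¬ W i ≤ W' i → v ∉ W' i) := by
    intro i
    by_cases hi : W i ≤ W' i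
    · exact ⟨0, (W i).zero_mem, fun h => absurd hi h⟩
    · obtain ⟨v, hv, hv'⟩ := SetLike.not_le_iff_exists.1 hi
      exact ⟨v, hv, fun _ => hv'⟩
  choose v hv hv' using h1
  have h2 : (fun j => Ideal.Quotient.mk (uI k U) (fun i => v i j)) ∈ bar k U W' :=
    h ⟨v, hv, fun j => rfl⟩
  obtain ⟨v', hv1, hv2⟩ := h2
  have h3 : ∀ j : Fin 3, ∀ᶠ i in (U : Filter ℕ), v i j = v' i j := by
    intro j
    have := hv2 j
    rw [Ideal.Quotient.eq, mem_uI] at this
    filter_upwards [this] with i hi
    exact sub_eq_zero.1 hi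
  have h4 : ∀ᶠ i in (U : Filter ℕ), ∀ j : Fin 3, v i j = v' i j := Filter.eventually_all.2 h3
  obtain ⟨i, hi1, hi2⟩ := (hc.and h4).exists
  apply hv' i hi1
  have : v i = v' i := funext hi2
  rw [this]; exact hv1 i

theorem bar_eq_iff {W W' : ∀ i, Submodule (k i) (Fin 3 → k i)} :
    bar k U W = bar k U W' ↔ ∀ᶠ i in (U : Filter ℕ), W i = W' i := by
  constructor
  · intro h
    filter_upwards [ev_of_bar_le h.le, ev_of_bar_le h.ge] with i h1 h2
    exact le_antisymm h1 h2
  · intro h
    apply le_antisymm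
    · exact bar_mono_ev (h.mono fun i hi => hi.le)
    · exact bar_mono_ev (h.mono fun i hi => hi.ge)

theorem bar_inf (W W' : ∀ i, Submodule (k i) (Fin 3 → k i)) :
    bar k U (fun i => W i ⊓ W' i) = bar k U W ⊓ bar k U W' := by
  classical
  apply le_antisymm
  · exact le_inf (bar_mono_ev (Eventually.of_forall fun i => inf_le_left))
      (bar_mono_ev (Eventually.of_forall fun i => inf_le_right))
  · rintro x ⟨⟨v, hv, hx⟩, ⟨v', hv', hx'⟩⟩
    have h3 : ∀ j : Fin 3, ∀ᶠ i in (U : Filter ℕ), v i j = v' i j := by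
      intro j
      have := (hx j).symm.trans (hx' j)
      rw [Ideal.Quotient.eq, mem_uI] at this
      filter_upwards [this] with i hi
      exact sub_eq_zero.1 hi
    have h4 : ∀ᶠ i in (U : Filter ℕ), ∀ j : Fin 3, v i j = v' i j := Filter.eventually_all.2 h3
    refine ⟨fun i => if v i = v' i then v i else 0, fun i => ?_, fun j => ?_⟩
    · by_cases hi : v i = v' i
      · simp only [hi, if_true]
        exact ⟨hi ▸ hv i, hv' i⟩
      · simp only [hi, if_false]; exact Submodule.zero_mem _
    · rw [hx, Ideal.Quotient.eq, mem_uI]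
      filter_upwards [h4] with i hi
      simp [funext hi]

theorem bar_sup (W W' : ∀ i, Submodule (k i) (Fin 3 → k i)) :
    bar k U (fun i => W i ⊔ W' i) = bar k U W ⊔ bar k U W' := by
  apply le_antisymm
  · rintro x ⟨v, hv, hx⟩
    have h1 : ∀ i, ∃ a ∈ W i, ∃ b ∈ W' i, a + b = v i := fun i => Submodule.mem_sup.1 (hv i)
    choose a ha b hb hab using h1
    have h2 : x = (fun j => Ideal.Quotient.mk (uI k U) (fun i => a i j)) +
        fun j => Ideal.Quotient.mk (uI k U) (fun i => b i j) := by
      funext j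
      rw [hx, Pi.add_apply, ← map_add]
      congr 1
      funext i
      rw [← hab i]; rfl
    rw [h2]
    exact Submodule.add_mem_sup ⟨a, ha, fun j => rfl⟩ ⟨b, hb, fun j => rfl⟩
  · exact sup_le (bar_mono_ev (Eventually.of_forall fun i => le_sup_left))
      (bar_mono_ev (Eventually.of_forall fun i => le_sup_right))

end Ultra

section Comp

/-- two fields of characteristic zero have a common extension -/
theorem exists_common (K K' : Type u) [Field K] [Field K'] [CharZero K] [CharZero K'] :
    ∃ (Ω : Type u) (_ : Field Ω) (_ : Algebra K Ω) (_ : Algebra K' Ω), True := by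
  let _ : Algebra ℚ K := DivisionRing.toRatAlgebra
  let _ : Algebra ℚ K' := DivisionRing.toRatAlgebra
  let T := TensorProduct ℚ K K'
  have : Nontrivial T := inferInstance
  obtain ⟨m, hm⟩ := Ideal.exists_maximal T
  let _ : Field (T ⧸ m) := Ideal.Quotient.field m
  exact ⟨T ⧸ m, inferInstance,
    ((Ideal.Quotient.mk m).comp (Algebra.TensorProduct.includeLeft : K →ₐ[ℚ] T).toRingHom).toAlgebra,
    ((Ideal.Quotient.mk m).comp (Algebra.TensorProduct.includeRight : K' →ₐ[ℚ] T).toRingHom).toAlgebra,
    trivial⟩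

end Comp

end Pool.Agent.Q16.SubLat
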