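import Pool.Agent.Q16.SubLat.Main

set_option autoImplicit false

namespace Pool.Agent.Q16.SubLat

universe u v w

open Filter FirstOrder

section

variable (k k' : ℕ → Type u) [∀ i, Field (k i)] [∀ i, Field (k' i)] (U : Ultrafilter ℕ)

theorem not_inK_Li (i p q : ℕ) (hpq : Nat.Coprime p q) (hp : (p : k i) = 0)
    (hq : (q : k' i) = 0) : ¬ InK (Li k k' i) := by
  rintro ⟨D, V, _, _, _, f, hinj, hinf, hsup⟩
  have h1 : (p : D) = 0 := by
    refine char_transfer (fun W => f (W, ⊥)) ?_ ?_ ?_ p hp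
    · intro W W' h
      exact congrArg Prod.fst (hinj h)
    · intro a b
      rw [← hinf]; congr 1
      exact Prod.ext rfl (by simp)
    · intro a b
      rw [← hsup]; congr 1
      exact Prod.ext rfl (by simp)
  have h2 : (q : D) = 0 := by
    refine char_transfer (fun W => f (⊥, W)) ?_ ?_ ?_ q hq
    · intro W W' h
      exact congrArg Prod.snd (hinj h)
    · intro a b
      rw [← hinf]; congr 1
      exact Prod.ext (by simp) rfl
    · intro a b
      rw [← hsup]; congr 1
      exact Prod.ext (by simp) rfl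
  obtain ⟨a, b, hab⟩ := Nat.isCoprime_iff_coprime.2 hpq
  have h3 : ((a * p + b * q : ℤ) : D) = 1 := by rw [hab]; simp
  push_cast at h3
  rw [h1, h2, mul_zero, mul_zero, add_zero] at h3
  exact zero_ne_one h3

theorem charZero_UK (h : ∀ n : ℕ, n ≠ 0 → ∀ᶠ i in (U : Filter ℕ), (n : k i) ≠ 0) :
    CharZero (UK k U) := by
  apply charZero_of_inj_zero
  intro n hn
  by_contra hne
  have h1 : (Ideal.Quotient.mk (uI k U) (fun i => (n : k i)) : UK k U) = 0 := by
    rw [← hn]
    have : (fun i => (n : k i)) = (n : ∀ i, k i) := rfl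
    rw [this, map_natCast]
  rw [Ideal.Quotient.eq_zero_iff_mem, mem_uI] at h1
  obtain ⟨i, hi1, hi2⟩ := (h1.and (h n hne)).exists
  exact hi2 hi1

theorem inK_UP [CharZero (UK k U)] [CharZero (UK k' U)] :
    ∃ inst : Lattice (UP k k' U), @InK (UP k k' U) inst ∧
      @latStructure (UP k k' U) inst = (inferInstance : latLang.Structure (UP k k' U)) := by
  obtain ⟨Ω, _, _, _, _⟩ := exists_common (UK k U) (UK k' U)
  exact ⟨upLattice k k' U Ω, ⟨Ω, (Fin 3 → Ω) × (Fin 3 → Ω), inferInstance, inferInstance,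
    inferInstance, emb k k' U Ω, emb_inj k k' U Ω, emb_funInf k k' U Ω, emb_funSup k k' U Ω⟩,
    upStr_eq k k' U Ω⟩

theorem main_aux (p q : ℕ → ℕ) (hpq : ∀ i, Nat.Coprime (p i) (q i)) (hp : ∀ i, (p i : k i) = 0)
    (hq : ∀ i, (q i : k' i) = 0) [CharZero (UK k U)] [CharZero (UK k' U)]
    (Γ : Set latLang.Sentence) (hΓ : Γ.Finite)
    (h : ∀ (L : Type u) [Lattice L] [Nonempty L], InK L ↔ ∀ φ ∈ Γ, Sat L φ) : False := by
  obtain ⟨inst, hK, hstr⟩ := inK_UP k k' U
  have hne : Nonempty (UP k k' U) := ⟨((fun _ => ⊥ : ∀ i, Li k k' i) : UP k k' U)⟩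
  have h1 := (@h (UP k k' U) inst hne).1 hK
  have h2 : ∀ φ ∈ Γ, ∀ᶠ i in (U : Filter ℕ), Sat (Li k k' i) φ := by
    intro φ hφ
    have h3 := h1 φ hφ
    unfold Sat at h3
    rw [hstr] at h3
    exact Language.Ultraproduct.sentence_realize (L := latLang) (M := Li k k') (u := U) φ |>.1 h3
  have h4 : ∀ᶠ i in (U : Filter ℕ), ∀ φ ∈ Γ, Sat (Li k k' i) φ :=
    (Filter.eventually_all_finite hΓ).2 h2
  obtain ⟨i, hi⟩ := h4.exists
  exact not_inK_Li k k' i (p i) (q i) (hpq i) (hp i) (hq i) ((h (Li k k' i)).2 hi)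

end

theorem main : ¬ ∃ Γ : Set latLang.Sentence, Γ.Finite ∧
    ∀ (L : Type u) [Lattice L] [Nonempty L], InK L ↔ ∀ φ ∈ Γ, Sat L φ := by
  rintro ⟨Γ, hΓ, h⟩
  let p : ℕ → ℕ := fun i => Nat.nth Nat.Prime i
  let q : ℕ → ℕ := fun i => Nat.nth Nat.Prime (i + 1)
  have hp : ∀ i, (p i).Prime := fun i => Nat.prime_nth_prime i
  have hq : ∀ i, (q i).Prime := fun i => Nat.prime_nth_prime (i + 1)
  have hpF : ∀ i, Fact (p i).Prime := fun i => ⟨hp i⟩
  have hqF : ∀ i, Fact (q i).Prime := fun i => ⟨hq i⟩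
  have hne : ∀ i, p i ≠ q i := fun i hc => by
    have := (Nat.nth_strictMono Nat.infinite_setOfPred_prime) (Nat.lt_succ_self i)
    exact absurd hc this.ne
  let k : ℕ → Type u := fun i => ULift.{u} (ZMod (p i))
  let k' : ℕ → Type u := fun i => ULift.{u} (ZMod (q i))
  let _ : ∀ i, Field (k i) := fun i => inferInstanceAs (Field (ULift.{u} (ZMod (p i))))
  let _ : ∀ i, Field (k' i) := fun i => inferInstanceAs (Field (ULift.{u} (ZMod (q i))))
  let U : Ultrafilter ℕ := Filter.hyperfilter ℕ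
  have hcast : ∀ (r : ℕ) (n : ℕ), ((n : ULift.{u} (ZMod r)) = 0) ↔ r ∣ n := by
    intro r n
    rw [← ZMod.natCast_eq_zero_iff]
    constructor
    · intro h
      have := congrArg ULift.down h
      simpa using this
    · intro h
      apply ULift.ext
      simpa using h
  have hev : ∀ n : ℕ, ∀ᶠ i in (U : Filter ℕ), n < i := by
    intro n
    have : ∀ᶠ i in (Filter.cofinite : Filter ℕ), n < i := by
      rw [Nat.cofinite_eq_atTop]
      exact Filter.eventually_gt_atTop n
    exact Filter.hyperfilter_le_cofinite this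
  have hc1 : CharZero (UK k U) := by
    apply charZero_UK
    intro n hn
    filter_upwards [hev n] with i hi hc
    have h1 : p i ∣ n := (hcast (p i) n).1 hc
    have h2 : i + 2 ≤ p i := Nat.add_two_le_nth_prime i
    have h3 := Nat.le_of_dvd (Nat.pos_of_ne_zero hn) h1
    omega
  have hc2 : CharZero (UK k' U) := by
    apply charZero_UK
    intro n hn
    filter_upwards [hev n] with i hi hc
    have h1 : q i ∣ n := (hcast (q i) n).1 hc
    have h2 : i + 1 + 2 ≤ q i := Nat.add_two_le_nth_prime (i + 1)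
    have h3 := Nat.le_of_dvd (Nat.pos_of_ne_zero hn) h1
    omega
  exact main_aux k k' U p q (fun i => (Nat.coprime_primes (hp i) (hq i)).2 (hne i))
    (fun i => (hcast (p i) (p i)).2 dvd_rfl) (fun i => (hcast (q i) (q i)).2 dvd_rfl) Γ hΓ h

end Pool.Agent.Q16.SubLat
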