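import Pool.Agent.Q16.SubLat.Defs
import Pool.Agent.Q16.SubLat.CharT
import Pool.Agent.Q16.SubLat.Ext

set_option autoImplicit false

namespace Pool.Agent.Q16.SubLat

universe u v w

open Filter FirstOrder

section

variable (k k' : ℕ → Type u) [∀ i, Field (k i)] [∀ i, Field (k' i)] (U : Ultrafilter ℕ)

/-- the symbol of the meet -/
abbrev fInf : latLang.Functions 2 := LatFunc.inf

/-- the symbol of the join -/
abbrev fSup : latLang.Functions 2 := LatFunc.sup

/-- the lattices `Sub(k^3) × Sub(k'^3)` -/
abbrev Li (i : ℕ) : Type u := Submodule (k i) (Fin 3 → k i) × Submodule (k' i) (Fin 3 → k' i)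

instance LiStr (i : ℕ) : latLang.Structure (Li k k' i) := latStructure (Li k k' i)

/-- the ultraproduct -/
abbrev UP : Type u := (U : Filter ℕ).Product (Li k k')

variable (Ω : Type u) [Field Ω] [Algebra (UK k U) Ω] [Algebra (UK k' U) Ω]

/-- the embedding of representatives -/
noncomputable def emb0 (W : ∀ i, Li k k' i) : Submodule Ω ((Fin 3 → Ω) × (Fin 3 → Ω)) :=
  (ext Ω (bar k U (fun i => (W i).1))).prod (ext Ω (bar k' U (fun i => (W i).2)))

theorem emb0_eq_iff (W W' : ∀ i, Li k k' i) :
    emb0 k k' U Ω W = emb0 k k' U Ω W' ↔ ∀ᶠ i in (U : Filter ℕ), W i = W' i := by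
  have h0 : ∀ {A A' : Submodule Ω (Fin 3 → Ω)} {B B' : Submodule Ω (Fin 3 → Ω)},
      A.prod B = A'.prod B' → A = A' ∧ B = B' := by
    intro A A' B B' h
    constructor
    · ext x
      have := SetLike.ext_iff.1 h (x, 0)
      simpa using this
    · ext x
      have := SetLike.ext_iff.1 h (0, x)
      simpa using this
  constructor
  · intro h
    obtain ⟨h1, h2⟩ := h0 h
    have h3 := bar_eq_iff.1 (ext_inj h1)
    have h4 := bar_eq_iff.1 (ext_inj h2)
    filter_upwards [h3, h4] with i h5 h6
    exact Prod.ext h5 h6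
  · intro h
    have h1 : bar k U (fun i => (W i).1) = bar k U (fun i => (W' i).1) :=
      bar_eq_iff.2 (h.mono fun i hi => by simp only [hi])
    have h2 : bar k' U (fun i => (W i).2) = bar k' U (fun i => (W' i).2) :=
      bar_eq_iff.2 (h.mono fun i hi => by simp only [hi])
    unfold emb0
    rw [h1, h2]

theorem prod_sup {A A' : Submodule Ω (Fin 3 → Ω)} {B B' : Submodule Ω (Fin 3 → Ω)} :
    (A ⊔ A').prod (B ⊔ B') = A.prod B ⊔ A'.prod B' := by
  apply le_antisymm
  · rintro ⟨x, y⟩ ⟨hx, hy⟩
    obtain ⟨a, ha, a', ha', rfl⟩ := Submodule.mem_sup.1 hx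
    obtain ⟨b, hb, b', hb', rfl⟩ := Submodule.mem_sup.1 hy
    exact Submodule.mem_sup.2 ⟨(a, b), ⟨ha, hb⟩, (a', b'), ⟨ha', hb'⟩, rfl⟩
  · exact sup_le (Submodule.prod_mono le_sup_left le_sup_left)
      (Submodule.prod_mono le_sup_right le_sup_right)

theorem prod_inf {A A' : Submodule Ω (Fin 3 → Ω)} {B B' : Submodule Ω (Fin 3 → Ω)} :
    (A ⊓ A').prod (B ⊓ B') = A.prod B ⊓ A'.prod B' := by
  ext ⟨x, y⟩
  simp only [Submodule.mem_prod, Submodule.mem_inf]
  tauto

theorem emb0_inf (W W' : ∀ i, Li k k' i) :
    emb0 k k' U Ω (fun i => W i ⊓ W' i) = emb0 k k' U Ω W ⊓ emb0 k k' U Ω W' := by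
  unfold emb0
  rw [← prod_inf, ← ext_inf, ← ext_inf, ← bar_inf, ← bar_inf]
  rfl

theorem emb0_sup (W W' : ∀ i, Li k k' i) :
    emb0 k k' U Ω (fun i => W i ⊔ W' i) = emb0 k k' U Ω W ⊔ emb0 k k' U Ω W' := by
  unfold emb0
  rw [← prod_sup, ← ext_sup, ← ext_sup, ← bar_sup, ← bar_sup]
  rfl

/-- the embedding of the ultraproduct -/
noncomputable def emb : UP k k' U → Submodule Ω ((Fin 3 → Ω) × (Fin 3 → Ω)) :=
  Quotient.lift (emb0 k k' U Ω) (fun W W' h => (emb0_eq_iff k k' U Ω W W').2 h)

theorem emb_inj : Function.Injective (emb k k' U Ω) := by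
  intro a b
  induction a using Quotient.inductionOn with
  | h W =>
    induction b using Quotient.inductionOn with
    | h W' =>
      intro h
      exact Quotient.sound ((emb0_eq_iff k k' U Ω W W').1 h)

theorem emb_funInf (a b : UP k k' U) :
    emb k k' U Ω (Language.Structure.funMap fInf ![a, b]) =
      emb k k' U Ω a ⊓ emb k k' U Ω b := by
  induction a using Quotient.inductionOn with
  | h W =>
    induction b using Quotient.inductionOn with
    | h W' =>
      have h1 := Language.Ultraproduct.funMap_cast (L := latLang) (M := Li k k') (u := U)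
        fInf ![W, W']
      have h2 : (fun i => ((![W, W'] i : ∀ i, Li k k' i) : UP k k' U)) =
          ![(W : UP k k' U), (W' : UP k k' U)] := by
        funext i; fin_cases i <;> rfl
      rw [h2] at h1
      have h3 : emb k k' U Ω (Language.Structure.funMap fInf
          ![(W : UP k k' U), (W' : UP k k' U)]) = emb0 k k' U Ω (fun i => W i ⊓ W' i) :=
        (congrArg (emb k k' U Ω) h1).trans rfl
      exact h3.trans (emb0_inf k k' U Ω W W')

theorem emb_funSup (a b : UP k k' U) :
    emb k k' U Ω (Language.Structure.funMap fSup ![a, b]) =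
      emb k k' U Ω a ⊔ emb k k' U Ω b := by
  induction a using Quotient.inductionOn with
  | h W =>
    induction b using Quotient.inductionOn with
    | h W' =>
      have h1 := Language.Ultraproduct.funMap_cast (L := latLang) (M := Li k k') (u := U)
        fSup ![W, W']
      have h2 : (fun i => ((![W, W'] i : ∀ i, Li k k' i) : UP k k' U)) =
          ![(W : UP k k' U), (W' : UP k k' U)] := by
        funext i; fin_cases i <;> rfl
      rw [h2] at h1
      have h3 : emb k k' U Ω (Language.Structure.funMap fSup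
          ![(W : UP k k' U), (W' : UP k k' U)]) = emb0 k k' U Ω (fun i => W i ⊔ W' i) :=
        (congrArg (emb k k' U Ω) h1).trans rfl
      exact h3.trans (emb0_sup k k' U Ω W W')

/-- the lattice structure of the ultraproduct -/
@[instance_reducible]
noncomputable def upLattice : Lattice (UP k k' U) :=
  let _ : Min (UP k k' U) := ⟨fun a b => Language.Structure.funMap fInf ![a, b]⟩
  let _ : Max (UP k k' U) := ⟨fun a b => Language.Structure.funMap fSup ![a, b]⟩
  let _ : LE (UP k k' U) := ⟨fun a b => emb k k' U Ω a ≤ emb k k' U Ω b⟩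
  let _ : LT (UP k k' U) := ⟨fun a b => emb k k' U Ω a < emb k k' U Ω b⟩
  Function.Injective.lattice (emb k k' U Ω) (emb_inj k k' U Ω) Iff.rfl Iff.rfl
    (emb_funSup k k' U Ω) (emb_funInf k k' U Ω)

theorem upStr_eq : @latStructure (UP k k' U) (upLattice k k' U Ω) =
    (inferInstance : latLang.Structure (UP k k' U)) := by
  refine Language.Structure.ext ?_ ?_
  · funext n f x
    cases f with
    | inf =>
      change Language.Structure.funMap fInf ![x 0, x 1] = _
      congr 1
      funext i; fin_cases i <;> rfl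
    | sup =>
      change Language.Structure.funMap fSup ![x 0, x 1] = _
      congr 1
      funext i; fin_cases i <;> rfl
  · funext n r x
    exact nomatch r

end

end Pool.Agent.Q16.SubLat
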